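import Mathlib

/-! Theorem F (MP_7d29a1_pr), section 10: the bootstrap, as a pure statement on sequences. -/

open Finset

namespace F17

lemma clog_bound (x : ℕ) : (2:ℝ) ^ (3 * Nat.clog 2 (x+2)) ≤ 8 * ((x:ℝ)+2)^3 := by
  have h1 : 2 ^ (Nat.clog 2 (x+2)) ≤ 2 * (x+2) := by
    have h := Nat.pow_pred_clog_lt_self (b := 2) (by norm_num) (x := x+2) (by omega)
    have hpos : 0 < Nat.clog 2 (x+2) := Nat.clog_pos (by norm_num) (by omega)
    have h2 : 2 ^ (Nat.clog 2 (x+2)) = 2 * 2 ^ ((Nat.clog 2 (x+2)).pred) := by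
      conv_lhs => rw [← Nat.succ_pred_eq_of_pos hpos]
      rw [pow_succ]; ring
    rw [h2]
    exact Nat.mul_le_mul_left 2 h.le
  have h2 : (2:ℝ) ^ (Nat.clog 2 (x+2)) ≤ 2 * ((x:ℝ)+2) := by exact_mod_cast h1
  calc (2:ℝ) ^ (3 * Nat.clog 2 (x+2)) = ((2:ℝ) ^ (Nat.clog 2 (x+2)))^3 := by
        rw [mul_comm, pow_mul]
    _ ≤ (2 * ((x:ℝ)+2))^3 := by gcongr
    _ = 8 * ((x:ℝ)+2)^3 := by ring

lemma clog_lower (x : ℕ) : ((x:ℝ)+2)^3 ≤ (2:ℝ) ^ (3 * Nat.clog 2 (x+2)) := by
  have h1 : x + 2 ≤ 2 ^ (Nat.clog 2 (x+2)) := Nat.le_pow_clog (by norm_num) _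
  have h2 : ((x:ℝ)+2) ≤ (2:ℝ) ^ (Nat.clog 2 (x+2)) := by exact_mod_cast h1
  calc ((x:ℝ)+2)^3 ≤ ((2:ℝ) ^ (Nat.clog 2 (x+2)))^3 := by gcongr
    _ = (2:ℝ) ^ (3 * Nat.clog 2 (x+2)) := by rw [mul_comm, pow_mul]

lemma clog_log (x : ℕ) : ((3 * Nat.clog 2 (x+2) : ℕ) : ℝ) ≤ 5 * Real.log ((x:ℝ)+2) + 4 := by
  have h := clog_bound x
  have hp : 0 < 8 * ((x:ℝ)+2)^3 := by positivity
  have h1 := Real.log_le_log (by positivity) h
  rw [Real.log_pow, Real.log_mul (by norm_num) (by positivity), Real.log_pow] at h1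
  have h8 : Real.log 8 = 3 * Real.log 2 := by
    rw [show (8:ℝ) = 2^3 by norm_num, Real.log_pow]; norm_num
  rw [h8] at h1
  have hl2 := Real.log_two_gt_d9
  have hl3 := Real.log_two_lt_d9
  have hlx : 0 ≤ Real.log ((x:ℝ)+2) := Real.log_nonneg (by linarith [(Nat.cast_nonneg x : (0:ℝ) ≤ x)])
  set m : ℝ := ((3 * Nat.clog 2 (x+2) : ℕ) : ℝ)
  have hm0 : 0 ≤ m := Nat.cast_nonneg _
  push_cast at h1
  -- m * log 2 ≤ 3 log 2 + 3 log (x+2)
  nlinarith

/-- Section 10 of Theorem F. -/
theorem boot (E ν σ : ℕ → ℝ) (l : ℕ → ℕ) (C g c : ℝ) (x0 : ℕ)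
    (hE1 : ∀ x, 1 ≤ E x) (hmono : Monotone E)
    (hg1 : g < 1) (hC : 1 ≤ C)
    (hSG : ∀ x y : ℕ, x0 ≤ x → x ≤ y → E y ≤ C * (2:ℝ)^(g * ((y:ℝ) - x)) * E x)
    (hν0 : ∀ x, 0 ≤ ν x) (hσ0 : ∀ x, 0 ≤ σ x) (hσ : Summable σ)
    (hl : ∀ x, x0 ≤ x → ν x * 2 ^ (l x) ≤ C)
    (hgrow : ∀ x, x0 ≤ x → E (x+1) ≤ E x + C * ν x * E (x + l x) + σ x * E x)
    (hsum : ∀ ε > 0, ∃ Cε, ∀ X : ℕ, 1 ≤ X → ∑ x ∈ range X, ν x ≤ ε * Real.log X + Cε)
    (hc : 0 < c) (hlow : ∀ x : ℕ, x0 ≤ x → c * x ≤ E x) : False := by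
  classical
  have hEpos : ∀ x, 0 < E x := fun x => lt_of_lt_of_le one_pos (hE1 x)
  set q : ℝ := (2:ℝ)^(g - 1) with hq
  have hq0 : 0 < q := Real.rpow_pos_of_pos (by norm_num) _
  have hq1 : q < 1 := Real.rpow_lt_one_of_one_lt_of_neg (by norm_num) (by linarith)
  set m : ℕ → ℕ := fun x => 3 * Nat.clog 2 (x+2) with hm
  have hmmono : Monotone m := fun a b hab => Nat.mul_le_mul_left 3 (Nat.clog_mono_right 2 (by omega))
  set l' : ℕ → ℕ := fun x => min (l x) (m x) with hl'
  set ν' : ℕ → ℝ := fun x => ν x + 1 / ((x:ℝ)+2)^3 with hν'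
  have hν'0 : ∀ x, 0 ≤ ν' x := fun x => by
    have := hν0 x
    have : 0 ≤ 1 / ((x:ℝ)+2)^3 := by positivity
    simp only [hν']; linarith
  -- (1) ν' x * 2^(l' x) ≤ 9 C
  have h1 : ∀ x, x0 ≤ x → ν' x * 2^(l' x) ≤ 9 * C := by
    intro x hx
    have ha : ν x * 2^(l' x) ≤ ν x * 2^(l x) := by
      apply mul_le_mul_of_nonneg_left _ (hν0 x)
      exact pow_le_pow_right₀ (by norm_num) (min_le_left _ _)
    have hb : (2:ℝ)^(l' x) ≤ 8 * ((x:ℝ)+2)^3 :=
      le_trans (pow_le_pow_right₀ (by norm_num) (min_le_right _ _)) (clog_bound x)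
    have hb' : 1 / ((x:ℝ)+2)^3 * (2:ℝ)^(l' x) ≤ 8 := by
      rw [div_mul_eq_mul_div, one_mul, div_le_iff₀ (by positivity)]
      exact hb
    have := hl x hx
    calc ν' x * 2^(l' x) = ν x * 2^(l' x) + 1 / ((x:ℝ)+2)^3 * (2:ℝ)^(l' x) := by
          simp only [hν']; ring
      _ ≤ C + 8 := by linarith
      _ ≤ 9 * C := by linarith
  -- (2) C ν E(x + l x) ≤ C^3 ν' E (x + l' x)
  have h2 : ∀ x, x0 ≤ x → C * ν x * E (x + l x) ≤ C^3 * ν' x * E (x + l' x) := by
    intro x hx
    by_cases hlm : l x ≤ m x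
    · have hll : l' x = l x := min_eq_left hlm
      rw [hll]
      have hE := (hEpos (x + l x)).le
      have hνν : ν x ≤ ν' x := by
        simp only [hν']
        have : 0 ≤ 1 / ((x:ℝ)+2)^3 := by positivity
        linarith
      have hC3 : C ≤ C^3 := by nlinarith [mul_nonneg (by linarith : (0:ℝ) ≤ C) (by linarith : (0:ℝ) ≤ C - 1), sq_nonneg C]
      apply mul_le_mul_of_nonneg_right _ hE
      exact mul_le_mul hC3 hνν (hν0 x) (by positivity)
    · have hlm' : m x < l x := not_le.mp hlm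
      have hll : l' x = m x := min_eq_right hlm'.le
      rw [hll]
      have hsg := hSG (x + m x) (x + l x) (by omega) (by omega)
      have hrp : (2:ℝ)^(g * (((x + l x : ℕ):ℝ) - ((x + m x : ℕ):ℝ))) ≤ 2^(l x) / 2^(m x) := by
        have : (2:ℝ)^(g * (((x + l x : ℕ):ℝ) - ((x + m x : ℕ):ℝ))) ≤ (2:ℝ)^(((l x:ℕ):ℝ) - ((m x : ℕ):ℝ)) := by
          apply Real.rpow_le_rpow_of_exponent_le (by norm_num)
          push_cast
          have h0 : (0:ℝ) ≤ (l x : ℝ) - (m x : ℝ) := by
            have : (m x : ℝ) ≤ l x := by exact_mod_cast hlm'.le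
            linarith
          nlinarith
        refine this.trans (le_of_eq ?_)
        rw [Real.rpow_sub (by norm_num), Real.rpow_natCast, Real.rpow_natCast]
      have hE := (hEpos (x + m x)).le
      have h3 : E (x + l x) ≤ C * (2^(l x) / 2^(m x)) * E (x + m x) := by
        refine hsg.trans ?_
        apply mul_le_mul_of_nonneg_right _ hE
        exact mul_le_mul_of_nonneg_left hrp (by linarith)
      have h4 : (1:ℝ) / 2^(m x) ≤ 1 / ((x:ℝ)+2)^3 := by
        apply one_div_le_one_div_of_le (by positivity) (clog_lower x)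
      have h5 : C * ν x * E (x + l x) ≤ C * ν x * (C * (2^(l x) / 2^(m x)) * E (x + m x)) :=
        mul_le_mul_of_nonneg_left h3 (mul_nonneg (by linarith) (hν0 x))
      have h6 : C * ν x * (C * (2^(l x) / 2^(m x)) * E (x + m x))
          = C^2 * (ν x * 2^(l x)) * (1 / 2^(m x)) * E (x + m x) := by ring
      rw [h6] at h5
      refine h5.trans ?_
      apply mul_le_mul_of_nonneg_right _ hE
      have h7 : C^2 * (ν x * 2^(l x)) ≤ C^3 := by
        have := hl x hx
        have hC2 : 0 ≤ C^2 := by positivity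
        nlinarith
      calc C^2 * (ν x * 2^(l x)) * (1 / 2^(m x)) ≤ C^3 * (1 / 2^(m x)) :=
            mul_le_mul_of_nonneg_right h7 (by positivity)
        _ ≤ C^3 * ν' x := by
            apply mul_le_mul_of_nonneg_left _ (by positivity)
            have := hν0 x
            simp only [hν']; linarith
  -- logs
  set Λ : ℕ → ℝ := fun x => Real.log (E x) with hΛ
  have hΛmono : Monotone Λ := fun a b hab => Real.log_le_log (hEpos a) (hmono hab)
  have hΛ0 : ∀ x, 0 ≤ Λ x := fun x => Real.log_nonneg (hE1 x)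
  -- sum over j < n of increments
  have htel : ∀ x n, ∑ j ∈ range n, (Λ (x + j + 1) - Λ (x + j)) = Λ (x + n) - Λ x := by
    intro x n
    have := Finset.sum_range_sub (fun j => Λ (x + j)) n
    simpa [add_assoc] using this
  -- (3) main pointwise inequality
  have h3 : ∀ K : ℝ, 1 < K → ∀ x, x0 ≤ x →
      Λ (x+1) - Λ x ≤ C^3 * K * ν' x + σ x +
        (9 * C^5 / Real.log K) * ∑ j ∈ range (m x), q^j * (Λ (x + j + 1) - Λ (x + j)) := by
    intro K hK x hx
    have hlogK : 0 < Real.log K := Real.log_pos hK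
    have hEx := hEpos x
    have hstep : Λ (x+1) - Λ x ≤ C^3 * ν' x * (E (x + l' x) / E x) + σ x := by
      have ha : Λ (x+1) - Λ x ≤ E (x+1) / E x - 1 := by
        have := Real.log_le_sub_one_of_pos (div_pos (hEpos (x+1)) hEx)
        rwa [Real.log_div (hEpos _).ne' hEx.ne'] at this
      have hb : E (x+1) / E x ≤ (E x + C^3 * ν' x * E (x + l' x) + σ x * E x) / E x := by
        apply div_le_div_of_nonneg_right _ hEx.le
        have := hgrow x hx
        have := h2 x hx
        linarith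
      have hc' : (E x + C^3 * ν' x * E (x + l' x) + σ x * E x) / E x
          = 1 + C^3 * ν' x * (E (x + l' x) / E x) + σ x := by
        field_simp
      linarith
    set S : ℝ := ∑ j ∈ range (m x), q^j * (Λ (x + j + 1) - Λ (x + j)) with hS
    have hinc : ∀ j, 0 ≤ Λ (x + j + 1) - Λ (x + j) := fun j => by
      have := hΛmono (Nat.le_succ (x + j))
      simp only [Nat.succ_eq_add_one] at this
      linarith
    have hS0 : 0 ≤ S := Finset.sum_nonneg fun j _ => mul_nonneg (by positivity) (hinc j)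
    have hcoef : 0 ≤ 9 * C^5 / Real.log K := by positivity
    have hC0 : 0 ≤ C := by linarith
    rcases le_or_gt (E (x + l' x) / E x) K with hR | hR
    · have : C^3 * ν' x * (E (x + l' x) / E x) ≤ C^3 * K * ν' x := by
        calc C^3 * ν' x * (E (x + l' x) / E x) ≤ C^3 * ν' x * K :=
              mul_le_mul_of_nonneg_left hR (mul_nonneg (by positivity) (hν'0 x))
          _ = C^3 * K * ν' x := by ring
      have := mul_nonneg hcoef hS0
      linarith
    · -- R > K
      have hlogR : Real.log K ≤ Λ (x + l' x) - Λ x := by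
        have := Real.log_le_log (by linarith) hR.le
        rwa [Real.log_div (hEpos _).ne' hEx.ne'] at this
      have hRle : E (x + l' x) / E x ≤ C * (2:ℝ)^(g * (l' x : ℝ)) := by
        rw [div_le_iff₀ hEx]
        have := hSG x (x + l' x) hx (by omega)
        have he : g * (((x + l' x : ℕ):ℝ) - (x:ℝ)) = g * (l' x : ℝ) := by push_cast; ring
        rw [he] at this
        exact this
      have hqq : q^(l' x) = (2:ℝ)^(g * (l' x : ℝ)) / 2^(l' x) := by
        rw [hq, ← Real.rpow_natCast, ← Real.rpow_mul (by norm_num), sub_mul, one_mul,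
          Real.rpow_sub (by norm_num), Real.rpow_natCast]
      have hprod : ν' x * (E (x + l' x) / E x) ≤ 9 * C^2 * q^(l' x) := by
        have h2pos : (0:ℝ) < 2^(l' x) := by positivity
        have hν1 : ν' x ≤ 9 * C / 2^(l' x) := by
          rw [le_div_iff₀ h2pos]; exact h1 x hx
        calc ν' x * (E (x + l' x) / E x) ≤ (9 * C / 2^(l' x)) * (C * (2:ℝ)^(g * (l' x : ℝ))) := by
              apply mul_le_mul hν1 hRle (div_nonneg (hEpos _).le hEx.le) (by positivity)
          _ = 9 * C^2 * q^(l' x) := by rw [hqq]; ring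
      have hsumS : q^(l' x) * (Λ (x + l' x) - Λ x) ≤ S := by
        rw [← htel x (l' x), Finset.mul_sum]
        calc ∑ j ∈ range (l' x), q^(l' x) * (Λ (x + j + 1) - Λ (x + j))
            ≤ ∑ j ∈ range (l' x), q^j * (Λ (x + j + 1) - Λ (x + j)) := by
              apply Finset.sum_le_sum
              intro j hj
              apply mul_le_mul_of_nonneg_right _ (hinc j)
              exact pow_le_pow_of_le_one hq0.le hq1.le (Finset.mem_range.mp hj).le
          _ ≤ S := by
              apply Finset.sum_le_sum_of_subset_of_nonneg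
              · exact Finset.range_mono (min_le_right _ _)
              · intro j _ _
                exact mul_nonneg (by positivity) (hinc j)
      have hone : q^(l' x) ≤ S / Real.log K := by
        rw [le_div_iff₀ hlogK]
        refine le_trans ?_ hsumS
        exact mul_le_mul_of_nonneg_left hlogR (by positivity)
      have hfin : C^3 * ν' x * (E (x + l' x) / E x) ≤ 9 * C^5 / Real.log K * S := by
        calc C^3 * ν' x * (E (x + l' x) / E x) = C^3 * (ν' x * (E (x + l' x) / E x)) := by ring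
          _ ≤ C^3 * (9 * C^2 * q^(l' x)) := mul_le_mul_of_nonneg_left hprod (by positivity)
          _ ≤ C^3 * (9 * C^2 * (S / Real.log K)) := by gcongr
          _ = 9 * C^5 / Real.log K * S := by ring
      have : 0 ≤ C^3 * K * ν' x := mul_nonneg (by positivity) (hν'0 x)
      linarith
  -- (4) sum over x
  have h4 : ∀ K : ℝ, 1 < K → ∀ X : ℕ, x0 ≤ X →
      Λ X - Λ x0 ≤ C^3 * K * ∑ x ∈ range X, ν' x + ∑' x, σ x +
        (9 * C^5 / Real.log K) * (1/(1-q)) * (Λ (X + m X) - Λ x0) := by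
    intro K hK X hX
    have hlogK : 0 < Real.log K := Real.log_pos hK
    have hcoef : 0 ≤ 9 * C^5 / Real.log K := by
      have : 0 ≤ C := by linarith
      positivity
    have hsumx : Λ X - Λ x0 = ∑ x ∈ Finset.Ico x0 X, (Λ (x+1) - Λ x) := by
      rw [Finset.sum_Ico_sub _ hX]
    rw [hsumx]
    have hA : ∑ x ∈ Finset.Ico x0 X, (Λ (x+1) - Λ x) ≤
        ∑ x ∈ Finset.Ico x0 X, (C^3 * K * ν' x + σ x +
        (9 * C^5 / Real.log K) * ∑ j ∈ range (m x), q^j * (Λ (x + j + 1) - Λ (x + j))) :=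
      Finset.sum_le_sum fun x hx => h3 K hK x (Finset.mem_Ico.mp hx).1
    refine hA.trans ?_
    rw [Finset.sum_add_distrib, Finset.sum_add_distrib, ← Finset.mul_sum, ← Finset.mul_sum]
    have hB : ∑ x ∈ Finset.Ico x0 X, ν' x ≤ ∑ x ∈ range X, ν' x := by
      apply Finset.sum_le_sum_of_subset_of_nonneg
      · intro x hx; exact Finset.mem_range.mpr (Finset.mem_Ico.mp hx).2
      · intro x _ _; exact hν'0 x
    have hCσ : ∑ x ∈ Finset.Ico x0 X, σ x ≤ ∑' x, σ x := hσ.sum_le_tsum _ (fun x _ => hσ0 x)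
    have hD : ∑ x ∈ Finset.Ico x0 X, ∑ j ∈ range (m x), q^j * (Λ (x + j + 1) - Λ (x + j))
        ≤ (1/(1-q)) * (Λ (X + m X) - Λ x0) := by
      have hinc : ∀ x j, 0 ≤ Λ (x + j + 1) - Λ (x + j) := fun x j => by
        have := hΛmono (Nat.le_succ (x + j))
        simp only [Nat.succ_eq_add_one] at this
        linarith
      calc ∑ x ∈ Finset.Ico x0 X, ∑ j ∈ range (m x), q^j * (Λ (x + j + 1) - Λ (x + j))
          ≤ ∑ x ∈ Finset.Ico x0 X, ∑ j ∈ range (m X), q^j * (Λ (x + j + 1) - Λ (x + j)) := by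
            apply Finset.sum_le_sum
            intro x hx
            apply Finset.sum_le_sum_of_subset_of_nonneg
            · exact Finset.range_mono (hmmono (Finset.mem_Ico.mp hx).2.le)
            · intro j _ _
              exact mul_nonneg (by positivity) (hinc x j)
        _ = ∑ j ∈ range (m X), q^j * ∑ x ∈ Finset.Ico x0 X, (Λ (x + j + 1) - Λ (x + j)) := by
            rw [Finset.sum_comm]
            simp_rw [Finset.mul_sum]
        _ = ∑ j ∈ range (m X), q^j * (Λ (X + j) - Λ (x0 + j)) := by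
            apply Finset.sum_congr rfl
            intro j _
            congr 1
            have := Finset.sum_Ico_sub (fun x => Λ (x + j)) hX
            rw [← this]
            apply Finset.sum_congr rfl
            intro x _
            congr 2
            ring
        _ ≤ ∑ j ∈ range (m X), q^j * (Λ (X + m X) - Λ x0) := by
            apply Finset.sum_le_sum
            intro j hj
            apply mul_le_mul_of_nonneg_left _ (by positivity)
            have ha := hΛmono (show X + j ≤ X + m X by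
              have := Finset.mem_range.mp hj; omega)
            have hb := hΛmono (show x0 ≤ x0 + j by omega)
            linarith
        _ = (∑ j ∈ range (m X), q^j) * (Λ (X + m X) - Λ x0) := by rw [Finset.sum_mul]
        _ ≤ (1/(1-q)) * (Λ (X + m X) - Λ x0) := by
            apply mul_le_mul_of_nonneg_right
            · have hg := hasSum_geometric_of_lt_one hq0.le hq1
              have := sum_le_hasSum (range (m X)) (fun j _ => by positivity) hg
              rwa [inv_eq_one_div] at this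
            · have := hΛmono (show x0 ≤ X + m X by omega)
              linarith
    have hC3 : 0 ≤ C^3 * K := by
      have : 0 ≤ C := by linarith
      have : 0 ≤ K := by linarith
      positivity
    have e1 := mul_le_mul_of_nonneg_left hB hC3
    have e2 := mul_le_mul_of_nonneg_left hD hcoef
    calc _ ≤ C^3 * K * ∑ x ∈ range X, ν' x + ∑' x, σ x + 9 * C^5 / Real.log K * ((1/(1-q)) * (Λ (X + m X) - Λ x0)) := by
          linarith
      _ = _ := by ring
  -- (5) choice of K
  have hC0 : 0 < C := by linarith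
  have h1q : 0 < 1 - q := by linarith
  set K : ℝ := Real.exp (32 * (9 * C^5) * (1/(1-q))) with hKdef
  have hK1 : 1 < K := by
    rw [hKdef]; apply Real.one_lt_exp_iff.mpr; positivity
  have hlogK : Real.log K = 32 * (9 * C^5) * (1/(1-q)) := Real.log_exp _
  have hcoef : (9 * C^5 / Real.log K) * (1/(1-q)) = 1/32 := by
    rw [hlogK]; field_simp
  -- summability of 1/(x+2)^3
  have hs3 : Summable (fun x : ℕ => 1 / ((x:ℝ)+2)^3) := by
    have := (summable_nat_add_iff 2).mpr (Real.summable_one_div_nat_pow.mpr (by norm_num : 1 < 3))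
    simpa using this
  obtain ⟨Cε, hCε⟩ := hsum (1 / (8 * C^3 * K)) (by positivity)
  set B3 : ℝ := ∑' x : ℕ, 1 / ((x:ℝ)+2)^3 with hB3
  have hmain : ∀ X : ℕ, max x0 1 ≤ X → Real.log c + Real.log X ≤ 
      1/2 * Real.log ((X:ℝ)+2) + (Λ x0 + (32/31) * (C^3 * K * (|Cε| + B3) + ∑' x, σ x + (Real.log C + 4)/32)) := by
    intro X hX
    have hX0 : x0 ≤ X := le_trans (le_max_left _ _) hX
    have hX1 : 1 ≤ X := le_trans (le_max_right _ _) hX
    have hXpos : (0:ℝ) < X := by exact_mod_cast hX1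
    have hup := h4 K hK1 X hX0
    rw [hcoef] at hup
    -- upper bound of Λ (X + m X)
    have hsg : Λ (X + m X) ≤ Λ X + Real.log C + (m X : ℝ) := by
      have h := hSG X (X + m X) hX0 (by omega)
      have he : g * (((X + m X : ℕ):ℝ) - (X:ℝ)) = g * (m X : ℝ) := by push_cast; ring
      rw [he] at h
      have h' := Real.log_le_log (hEpos _) h
      rw [Real.log_mul (by positivity) (hEpos X).ne', Real.log_mul hC0.ne' (by positivity),
        Real.log_rpow (by norm_num)] at h'
      have hl2 : Real.log 2 < 1 := by linarith [Real.log_two_lt_d9]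
      have hl20 : 0 < Real.log 2 := Real.log_pos (by norm_num)
      have hmX : (0:ℝ) ≤ m X := Nat.cast_nonneg _
      have : g * (m X : ℝ) * Real.log 2 ≤ m X := by
        have h1 : g * (m X : ℝ) ≤ m X := by nlinarith
        nlinarith [mul_le_mul_of_nonneg_right h1 hl20.le]
      simp only [hΛ]
      linarith
    have hmlog := clog_log X
    have hν'sum : ∑ x ∈ range X, ν' x ≤ (1 / (8 * C^3 * K)) * Real.log X + |Cε| + B3 := by
      have h1 := hCε X hX1
      have h2 : ∑ x ∈ range X, 1 / ((x:ℝ)+2)^3 ≤ B3 := hs3.sum_le_tsum _ (fun x _ => by positivity)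
      have h3 := le_abs_self Cε
      simp only [hν', Finset.sum_add_distrib]
      linarith
    have hC3K : 0 < C^3 * K := by positivity
    have hm1 := mul_le_mul_of_nonneg_left hν'sum hC3K.le
    have hexp : C^3 * K * ((1 / (8 * C^3 * K)) * Real.log X + |Cε| + B3) =
        1/8 * Real.log X + C^3 * K * (|Cε| + B3) := by
      field_simp
      ring
    rw [hexp] at hm1
    have hlowX := hlow X hX0
    have hlog := Real.log_le_log (by positivity) hlowX
    rw [Real.log_mul hc.ne' hXpos.ne'] at hlog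
    have hlX : Real.log X ≤ Real.log ((X:ℝ)+2) := Real.log_le_log hXpos (by linarith)
    have hlX0 : 0 ≤ Real.log ((X:ℝ)+2) := Real.log_nonneg (by linarith)
    have hΛx0 := hΛ0 x0
    simp only [hm] at hsg hup
    change Real.log c + Real.log X ≤ Λ X at hlog
    linarith
  -- contradiction
  set D : ℝ := Λ x0 + (32/31) * (C^3 * K * (|Cε| + B3) + ∑' x, σ x + (Real.log C + 4)/32) with hD
  have htend : Filter.Tendsto (fun X : ℕ => Real.log (X:ℝ)) Filter.atTop Filter.atTop :=
    Real.tendsto_log_atTop.comp tendsto_natCast_atTop_atTop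
  obtain ⟨X, hX⟩ := ((htend.eventually_gt_atTop (2 * (D + 1 - Real.log c))).and
    (Filter.eventually_ge_atTop (max x0 1))).exists
  have h := hmain X hX.2
  have hX1 : 1 ≤ X := le_trans (le_max_right _ _) hX.2
  have hXpos : (0:ℝ) < X := by exact_mod_cast hX1
  have hX1' : (1:ℝ) ≤ X := by exact_mod_cast hX1
  have hlog3 : Real.log ((X:ℝ)+2) ≤ Real.log X + 2 := by
    have : (X:ℝ) + 2 ≤ X * 3 := by linarith
    have h' := Real.log_le_log (by linarith) this
    rw [Real.log_mul hXpos.ne' (by norm_num)] at h'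
    have h3 : Real.log 3 ≤ 2 := by
      have := Real.log_le_sub_one_of_pos (show (0:ℝ) < 3 by norm_num)
      linarith
    linarith
  have := hX.1
  linarith

end F17
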