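import Mathlib
import Pool.Agent.W_7d29a1_f17.Boot

/-! Theorem F (MP_7d29a1_pr), sections 9 (last step) and 10: from the crossing inequality at all
scales with summable relative widths to the contradiction. Pure statement. -/

open Finset

namespace F17

lemma sum_two_pow_le (s : Finset ℕ) (R : ℝ) (h : ∀ x ∈ s, (2:ℝ)^x < R) (hR : 0 ≤ R) :
    ∑ x ∈ s, (2:ℝ)^x ≤ 2 * R := by
  classical
  rcases s.eq_empty_or_nonempty with hs | hs
  · simp [hs]; exact hR
  · set M := s.max' hs with hM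
    have hMs : M ∈ s := s.max'_mem hs
    have h1 : s ⊆ range (M+1) := fun x hx => by
      have := s.le_max' x hx
      exact Finset.mem_range.mpr (by omega)
    have h2 : ∑ x ∈ s, (2:ℝ)^x ≤ ∑ x ∈ range (M+1), (2:ℝ)^x :=
      Finset.sum_le_sum_of_subset_of_nonneg h1 (fun x _ _ => by positivity)
    have h3 : ∑ x ∈ range (M+1), (2:ℝ)^x = 2^(M+1) - 1 := by
      have := geom_sum_eq (show (2:ℝ) ≠ 1 by norm_num) (M+1)
      rw [this]; norm_num
    have h4 := h M hMs
    rw [h3, pow_succ] at h2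
    linarith

/-- logarithmic weights against a summable sequence -/
lemma log_weight (Us : ℕ → ℝ) (h0 : ∀ i, 0 ≤ Us i) (hs : Summable Us) (ε : ℝ) (hε : 0 < ε) :
    ∃ B, ∀ X : ℕ, ∑ i ∈ range X, Real.log ((i:ℝ)+3) * Us (i+1) ≤ ε * Real.log ((X:ℝ)+2) + B := by
  have hs1 : Summable (fun i => Us (i+1)) := (summable_nat_add_iff 1).mpr hs
  have htend := hs1.hasSum.tendsto_sum_nat
  set S := ∑' i, Us (i+1) with hS
  have hev : ∀ᶠ n in Filter.atTop, S - ε < ∑ i ∈ range n, Us (i+1) :=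
    htend.eventually (lt_mem_nhds (by linarith))
  obtain ⟨N, hN⟩ := hev.exists
  refine ⟨∑ i ∈ range N, Real.log ((i:ℝ)+3) * Us (i+1), fun X => ?_⟩
  have hlog0 : ∀ i : ℕ, 0 ≤ Real.log ((i:ℝ)+3) := fun i =>
    Real.log_nonneg (by linarith [(Nat.cast_nonneg i : (0:ℝ) ≤ i)])
  have hX0 : 0 ≤ Real.log ((X:ℝ)+2) := Real.log_nonneg (by linarith [(Nat.cast_nonneg X : (0:ℝ) ≤ X)])
  rcases le_total X N with h | h
  · have : ∑ i ∈ range X, Real.log ((i:ℝ)+3) * Us (i+1) ≤ ∑ i ∈ range N, Real.log ((i:ℝ)+3) * Us (i+1) :=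
      Finset.sum_le_sum_of_subset_of_nonneg (Finset.range_mono h)
        (fun i _ _ => mul_nonneg (hlog0 i) (h0 _))
    nlinarith
  · rw [← Finset.sum_range_add_sum_Ico _ h]
    have h1 : ∑ i ∈ Finset.Ico N X, Real.log ((i:ℝ)+3) * Us (i+1) ≤
        ∑ i ∈ Finset.Ico N X, Real.log ((X:ℝ)+2) * Us (i+1) := by
      apply Finset.sum_le_sum
      intro i hi
      have hi' := (Finset.mem_Ico.mp hi).2
      apply mul_le_mul_of_nonneg_right _ (h0 _)
      apply Real.log_le_log (by positivity)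
      have : ((i+1 : ℕ):ℝ) ≤ X := by exact_mod_cast hi'
      push_cast at this
      linarith
    rw [← Finset.mul_sum] at h1
    have h2 : ∑ i ∈ Finset.Ico N X, Us (i+1) ≤ ε := by
      have h3 : ∑ i ∈ range X, Us (i+1) ≤ S := hs1.sum_le_tsum _ (fun i _ => h0 _)
      rw [← Finset.sum_range_add_sum_Ico _ h] at h3
      linarith
    have h4 := mul_le_mul_of_nonneg_left h2 hX0
    linarith

/-- Sections 9 (sum) and 10 of Theorem F together. -/
theorem final_pure (E Us : ℕ → ℝ) (A : ℕ) (C g c : ℝ) (x0 i0 : ℕ)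
    (hE1 : ∀ x, 1 ≤ E x) (hmono : Monotone E) (hdouble : ∀ x, E (x+1) ≤ 2 * E x)
    (hg1 : g < 1) (hC : 1 ≤ C) (hA : 4 ≤ A)
    (hSG : ∀ x y : ℕ, x0 ≤ x → x ≤ y → E y ≤ C * (2:ℝ)^(g * ((y:ℝ) - x)) * E x)
    (hUs : Summable Us) (hfloor : ∀ i : ℕ, 1 / ((i:ℝ)+1)^2 ≤ Us i)
    (hcross : ∀ x i l : ℕ, x0 ≤ x → i0 ≤ i →
      C * Real.log ((i:ℝ)+2) * Us i * (A:ℝ)^i ≤ 2^x → 4 * 2^x ≤ (A:ℝ)^i →
      C * (A:ℝ)^i ≤ 2^(x+l) →
      E (x+1) ≤ E x + C * (2^x / (A:ℝ)^i) * E (x+l) + C / ((i:ℝ)+1)^2 * E x)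
    (hc : 0 < c) (hlow : ∀ x : ℕ, x0 ≤ x → c * x ≤ E x) : False := by
  classical
  have hUs0 : ∀ i : ℕ, 0 ≤ Us i := fun i => le_trans (by positivity) (hfloor i)
  have hA0 : (0:ℝ) < A := by exact_mod_cast (by omega : 0 < A)
  have hA4 : (4:ℝ) ≤ A := by exact_mod_cast hA
  have hEpos : ∀ x, 0 < E x := fun x => lt_of_lt_of_le one_pos (hE1 x)
  -- the predicate
  set R : ℕ → ℝ := fun i => C * Real.log ((i:ℝ)+2) * Us i * (A:ℝ)^i with hR
  have hlog0 : ∀ i : ℕ, 0 ≤ Real.log ((i:ℝ)+2) := fun i =>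
    Real.log_nonneg (by linarith [(Nat.cast_nonneg i : (0:ℝ) ≤ i)])
  have hR0 : ∀ i, 0 ≤ R i := fun i => by
    simp only [hR]
    exact mul_nonneg (mul_nonneg (mul_nonneg (by linarith) (hlog0 i)) (hUs0 i)) (by positivity)
  -- R x > 2^x for large x
  have hlarge : ∀ᶠ x : ℕ in Filter.atTop, (2:ℝ)^x < R x := by
    have h1 : Filter.Tendsto (fun n : ℕ => (n:ℝ)^2 * (1/2:ℝ)^n) Filter.atTop (nhds 0) :=
      tendsto_pow_const_mul_const_pow_of_lt_one 2 (by norm_num) (by norm_num)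
    have h2 : ∀ᶠ n : ℕ in Filter.atTop, (n:ℝ)^2 * (1/2:ℝ)^n < 1/16 :=
      h1.eventually (gt_mem_nhds (by norm_num))
    filter_upwards [h2, Filter.eventually_ge_atTop 2] with n hn hn2
    have hn2' : (2:ℝ) ≤ n := by exact_mod_cast hn2
    have hlogn : 1/2 ≤ Real.log ((n:ℝ)+2) := by
      have h3 : Real.log 2 ≤ Real.log ((n:ℝ)+2) := Real.log_le_log (by norm_num) (by linarith)
      linarith [Real.log_two_gt_d9]
    have hU := hfloor n
    have h5 : (4:ℝ)^n ≤ (A:ℝ)^n := by gcongr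
    have h6 : (1/2) * (1 / ((n:ℝ)+1)^2) * (4:ℝ)^n ≤ R n := by
      simp only [hR]
      have e1 : (1/2:ℝ) ≤ C * Real.log ((n:ℝ)+2) := by nlinarith
      have e2 : (1/2) * (1 / ((n:ℝ)+1)^2) ≤ C * Real.log ((n:ℝ)+2) * Us n :=
        mul_le_mul e1 hU (by positivity) (by linarith)
      exact mul_le_mul e2 h5 (by positivity) (by nlinarith [hUs0 n])
    have h7 : (n:ℝ)+1 ≤ 2 * n := by linarith
    have h8 : ((n:ℝ)+1)^2 ≤ 4 * (n:ℝ)^2 := by nlinarith
    have h2n : (0:ℝ) < 2^n := by positivity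
    have h4n : (4:ℝ)^n = 2^n * 2^n := by rw [← mul_pow]; norm_num
    have h9 : (n:ℝ)^2 < 1/16 * 2^n := by
      have : (1/2:ℝ)^n = 1 / 2^n := by rw [one_div, one_div, inv_pow]
      rw [this, mul_one_div, div_lt_iff₀ h2n] at hn
      exact hn
    have h10 : ((n:ℝ)+1)^2 < 2^n / 2 := by linarith
    have h11 : (2:ℝ)^n < (1/2) * (1 / ((n:ℝ)+1)^2) * (4:ℝ)^n := by
      rw [h4n]
      have hp : (0:ℝ) < ((n:ℝ)+1)^2 := by positivity
      have : (1/2) * (1 / ((n:ℝ)+1)^2) * (2^n * 2^n) = 2^n * ((2^n/2) / ((n:ℝ)+1)^2) := by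
        field_simp
      rw [this]
      have h12 : 1 < (2^n/2) / ((n:ℝ)+1)^2 := by
        rw [lt_div_iff₀ hp]; linarith
      nlinarith
    linarith
  obtain ⟨x1, hx1⟩ := Filter.eventually_atTop.mp hlarge
  -- 2^x ≥ R i0 for large x
  have htend2 : Filter.Tendsto (fun x : ℕ => (2:ℝ)^x) Filter.atTop Filter.atTop :=
    tendsto_pow_atTop_atTop_of_one_lt (by norm_num)
  obtain ⟨x2, hx2⟩ := Filter.eventually_atTop.mp (htend2.eventually_ge_atTop (R i0))
  set x3 : ℕ := max (max x0 x1) (max x2 i0) with hx3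
  -- the index
  set idx : ℕ → ℕ := fun x => Nat.findGreatest (fun i => R i ≤ 2^x) x with hidx
  have hidx1 : ∀ x, x3 ≤ x → R (idx x) ≤ 2^x := by
    intro x hx
    have hxi0 : i0 ≤ x := by
      simp only [hx3] at hx; omega
    have hxx2 : x2 ≤ x := by simp only [hx3] at hx; omega
    exact Nat.findGreatest_spec (P := fun i => R i ≤ 2^x) hxi0 (hx2 x hxx2)
  have hidx2 : ∀ x, x3 ≤ x → i0 ≤ idx x := by
    intro x hx
    have hxi0 : i0 ≤ x := by
      simp only [hx3] at hx; omega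
    have hxx2 : x2 ≤ x := by simp only [hx3] at hx; omega
    exact Nat.le_findGreatest hxi0 (hx2 x hxx2)
  have hidxle : ∀ x, idx x ≤ x := fun x => Nat.findGreatest_le x
  have hidxlt : ∀ x, x3 ≤ x → idx x < x := by
    intro x hx
    refine lt_of_le_of_ne (hidxle x) ?_
    intro heq
    have h1 := hidx1 x hx
    rw [heq] at h1
    have hxx1 : x1 ≤ x := by simp only [hx3] at hx; omega
    exact absurd (hx1 x hxx1) (not_lt.mpr h1)
  have hidx3 : ∀ x, x3 ≤ x → (2:ℝ)^x < R (idx x + 1) := by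
    intro x hx
    have h1 := Nat.findGreatest_is_greatest (P := fun i => R i ≤ 2^x) (n := x) (k := idx x + 1)
      (Nat.lt_succ_self _) (hidxlt x hx)
    exact not_le.mp h1
  -- definitions of ν, l, σ
  set ν : ℕ → ℝ := fun x => if 4 * (2:ℝ)^x ≤ (A:ℝ)^(idx x) then 2^x / (A:ℝ)^(idx x) else 1 with hν
  have hlex : ∀ x : ℕ, ∃ l : ℕ, C * (A:ℝ)^(idx x) ≤ 2^(x+l) := by
    intro x
    obtain ⟨l, hl⟩ := (htend2.eventually_ge_atTop (C * (A:ℝ)^(idx x))).exists
    exact ⟨l, hl.trans (pow_le_pow_right₀ (by norm_num) (by omega))⟩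
  set l : ℕ → ℕ := fun x => if 4 * (2:ℝ)^x ≤ (A:ℝ)^(idx x) then Nat.find (hlex x) else 0 with hl
  set σ : ℕ → ℝ := fun x => if 4 * (2:ℝ)^x ≤ (A:ℝ)^(idx x) then C / ((idx x:ℝ)+1)^2 else 0 with hσ
  have hν0 : ∀ x, 0 ≤ ν x := fun x => by
    simp only [hν]; split_ifs <;> positivity
  have hσ0 : ∀ x, 0 ≤ σ x := fun x => by
    have : 0 ≤ C := by linarith
    simp only [hσ]; split_ifs <;> positivity
  -- σ summable
  have hσs : Summable σ := by
    have hlogA : 0 < Real.log A := Real.log_pos (by linarith)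
    have hl2 : 0 < Real.log 2 := Real.log_pos (by norm_num)
    set b : ℝ := Real.log A / Real.log 2 with hb
    have hbpos : 0 < b := by positivity
    have hbound : ∀ x, σ x ≤ (C * b^2) * (1 / ((x:ℝ)+1)^2) := by
      intro x
      simp only [hσ]
      split_ifs with h
      · have h1 := Real.log_le_log (by positivity) h
        rw [Real.log_mul (by norm_num) (by positivity), Real.log_pow, Real.log_pow] at h1
        have h4 : Real.log 4 = 2 * Real.log 2 := by
          rw [show (4:ℝ) = 2^2 by norm_num, Real.log_pow]; norm_num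
        rw [h4] at h1
        have h5 : ((x:ℝ)+2) * Real.log 2 ≤ (idx x:ℝ) * Real.log A := by linarith
        have h6 : ((x:ℝ)+2) ≤ (idx x:ℝ) * b := by
          rw [hb, mul_div_assoc', le_div_iff₀ hl2]; exact h5
        have h7 : (x:ℝ)+1 ≤ b * ((idx x:ℝ)+1) := by nlinarith
        have hx1 : (0:ℝ) < (x:ℝ)+1 := by positivity
        have h8 : ((x:ℝ)+1)^2 ≤ b^2 * ((idx x:ℝ)+1)^2 := by
          rw [← mul_pow]; exact pow_le_pow_left₀ hx1.le h7 2
        have hC0 : 0 ≤ C := by linarith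
        rw [mul_one_div, div_le_div_iff₀ (by positivity) (by positivity)]
        nlinarith [mul_le_mul_of_nonneg_left h8 hC0]
      · have hC0 : 0 ≤ C := by linarith
        positivity
    have hs2 : Summable (fun x : ℕ => 1 / ((x:ℝ)+1)^2) := by
      have := (summable_nat_add_iff 1).mpr (Real.summable_one_div_nat_pow.mpr (by norm_num : 1 < 2))
      simpa using this
    exact Summable.of_nonneg_of_le hσ0 hbound (hs2.mul_left _)
  -- l bound
  have hlb : ∀ x, x3 ≤ x → ν x * 2^(l x) ≤ 2 * C := by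
    intro x _
    simp only [hν, hl]
    split_ifs with h
    · have hAi : (0:ℝ) < (A:ℝ)^(idx x) := by positivity
      rcases Nat.eq_zero_or_pos (Nat.find (hlex x)) with h0 | h0
      · rw [h0, pow_zero, mul_one, div_le_iff₀ hAi]
        nlinarith [show (0:ℝ) < 2^x by positivity]
      · have h1 := Nat.find_min (hlex x) (m := Nat.find (hlex x) - 1) (by omega)
        rw [not_le] at h1
        have h2 : (2:ℝ)^(x + Nat.find (hlex x)) = 2 * 2^(x + (Nat.find (hlex x) - 1)) := by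
          rw [← pow_succ']; congr 1; omega
        rw [div_mul_eq_mul_div, ← pow_add, div_le_iff₀ hAi, h2]
        linarith
    · simp; linarith
  -- growth
  have hgr : ∀ x, x3 ≤ x → E (x+1) ≤ E x + (2 * C) * ν x * E (x + l x) + σ x * E x := by
    intro x hx
    have hx0 : x0 ≤ x := by simp only [hx3] at hx; omega
    by_cases h : 4 * (2:ℝ)^x ≤ (A:ℝ)^(idx x)
    · have hh := hcross x (idx x) (Nat.find (hlex x)) hx0 (hidx2 x hx) (hidx1 x hx) h (Nat.find_spec (hlex x))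
      simp only [hν, hl, hσ, if_pos h]
      have h1 : 0 ≤ C * (2^x / (A:ℝ)^(idx x)) * E (x + Nat.find (hlex x)) :=
        mul_nonneg (mul_nonneg (by linarith) (by positivity)) (hEpos _).le
      linarith
    · simp only [hν, hl, hσ, if_neg h]
      have := hdouble x
      have := hEpos x
      simp only [add_zero, mul_one, zero_mul]
      nlinarith
  -- sum of ν
  have hνle : ∀ x, ν x ≤ 4 * 2^x / (A:ℝ)^(idx x) := by
    intro x
    have hAi : (0:ℝ) < (A:ℝ)^(idx x) := by positivity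
    simp only [hν]
    split_ifs with h
    · apply div_le_div_of_nonneg_right _ hAi.le
      nlinarith [show (0:ℝ) < 2^x by positivity]
    · rw [le_div_iff₀ hAi]; linarith
  have hνsum : ∀ X : ℕ, ∑ x ∈ Finset.Ico x3 X, ν x ≤ (8 * C * A) * ∑ i ∈ range X, Real.log ((i:ℝ)+3) * Us (i+1) := by
    intro X
    have h1 : ∑ x ∈ Finset.Ico x3 X, ν x ≤ ∑ x ∈ Finset.Ico x3 X, 4 * 2^x / (A:ℝ)^(idx x) :=
      Finset.sum_le_sum fun x _ => hνle x
    refine h1.trans ?_
    have h2 : ∑ x ∈ Finset.Ico x3 X, 4 * 2^x / (A:ℝ)^(idx x) =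
        ∑ i ∈ range X, ∑ x ∈ (Finset.Ico x3 X).filter (fun x => idx x = i), 4 * 2^x / (A:ℝ)^(idx x) := by
      rw [Finset.sum_fiberwise_of_maps_to]
      intro x hx
      have hx' := Finset.mem_Ico.mp hx
      exact Finset.mem_range.mpr (lt_of_le_of_lt (hidxle x) hx'.2)
    rw [h2, Finset.mul_sum]
    apply Finset.sum_le_sum
    intro i _
    have hAi : (0:ℝ) < (A:ℝ)^i := by positivity
    have h3 : ∑ x ∈ (Finset.Ico x3 X).filter (fun x => idx x = i), 4 * 2^x / (A:ℝ)^(idx x) =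
        (4 / (A:ℝ)^i) * ∑ x ∈ (Finset.Ico x3 X).filter (fun x => idx x = i), (2:ℝ)^x := by
      rw [Finset.mul_sum]
      apply Finset.sum_congr rfl
      intro x hx
      have := (Finset.mem_filter.mp hx).2
      rw [this]; ring
    rw [h3]
    have h4 : ∑ x ∈ (Finset.Ico x3 X).filter (fun x => idx x = i), (2:ℝ)^x ≤ 2 * R (i+1) := by
      apply sum_two_pow_le _ _ _ (hR0 _)
      intro x hx
      have hx' := Finset.mem_filter.mp hx
      have hx3' := (Finset.mem_Ico.mp hx'.1).1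
      have := hidx3 x hx3'
      rw [hx'.2] at this
      exact this
    have h5 := mul_le_mul_of_nonneg_left h4 (show 0 ≤ 4 / (A:ℝ)^i by positivity)
    refine h5.trans (le_of_eq ?_)
    simp only [hR]
    push_cast
    have : (i:ℝ) + 1 + 2 = i + 3 := by ring
    rw [this, pow_succ]
    field_simp
    ring
  have hsum : ∀ ε > 0, ∃ Cε, ∀ X : ℕ, 1 ≤ X → ∑ x ∈ range X, ν x ≤ ε * Real.log X + Cε := by
    intro ε hε
    have h8 : 0 < 8 * C * A := by positivity
    obtain ⟨B, hB⟩ := log_weight Us hUs0 hUs (ε / (8 * C * A)) (by positivity)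
    refine ⟨∑ x ∈ range x3, ν x + 8 * C * A * B + 2 * ε, fun X hX => ?_⟩
    have hXpos : (0:ℝ) < X := by exact_mod_cast hX
    have hX1 : (1:ℝ) ≤ X := by exact_mod_cast hX
    have hlX0 : 0 ≤ Real.log X := Real.log_nonneg hX1
    have hBX := mul_le_mul_of_nonneg_left (hB X) h8.le
    have e1 : 8 * C * A * (ε / (8 * C * A) * Real.log ((X:ℝ)+2) + B) = ε * Real.log ((X:ℝ)+2) + 8 * C * A * B := by
      field_simp
    rw [e1] at hBX
    have hlog3 : Real.log ((X:ℝ)+2) ≤ Real.log X + 2 := by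
      have : (X:ℝ) + 2 ≤ X * 3 := by linarith
      have h' := Real.log_le_log (by linarith) this
      rw [Real.log_mul hXpos.ne' (by norm_num)] at h'
      have h3 : Real.log 3 ≤ 2 := by
        have := Real.log_le_sub_one_of_pos (show (0:ℝ) < 3 by norm_num)
        linarith
      linarith
    have hsplit : ∑ x ∈ range X, ν x ≤ ∑ x ∈ range x3, ν x + ∑ x ∈ Finset.Ico x3 X, ν x := by
      rcases le_total x3 X with h | h
      · rw [Finset.sum_range_add_sum_Ico _ h]
      · have h1 : ∑ x ∈ range X, ν x ≤ ∑ x ∈ range x3, ν x :=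
          Finset.sum_le_sum_of_subset_of_nonneg (Finset.range_mono h) (fun x _ _ => hν0 x)
        have h2 : 0 ≤ ∑ x ∈ Finset.Ico x3 X, ν x := Finset.sum_nonneg fun x _ => hν0 x
        linarith
    have := hνsum X
    have h10 := mul_le_mul_of_nonneg_left hlog3 hε.le
    linarith
  -- apply boot
  have hx03 : x0 ≤ x3 := by simp only [hx3]; omega
  refine boot E ν σ l (2 * C) g c x3 hE1 hmono hg1 (by linarith) ?_ hν0 hσ0 hσs hlb hgr hsum hc
    (fun x hx => hlow x (hx03.trans hx))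
  intro x y hx hxy
  have h := hSG x y (hx03.trans hx) hxy
  refine h.trans ?_
  have h2 : (0:ℝ) < (2:ℝ)^(g * ((y:ℝ) - x)) := Real.rpow_pos_of_pos (by norm_num) _
  apply mul_le_mul_of_nonneg_right _ (hEpos x).le
  apply mul_le_mul_of_nonneg_right _ h2.le
  linarith

end F17
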