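import Mathlib

/-! Theorem F (MP_7d29a1_pr), section 9: the crossing inequality along a tube, abstract form.
`W` = point to point weights, `Wt` = weights of the paths inside the tube; `Su k`, `Sv k` = sites of
the tube at the times of `x k`, `y k`.  Only Chapman-Kolmogorov and the two path swap
`W u v * W x y ≤ W u y * W x v` inside ONE slab are used. -/

open Finset

namespace F17

variable {P : Type*}

theorem cross_aux (W Wt : P → P → ℝ) (hW0 : ∀ a b, 0 ≤ W a b) (hWt0 : ∀ a b, 0 ≤ Wt a b)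
    (hle : ∀ a b, Wt a b ≤ W a b) (z : P) (K : ℕ) (x y : ℕ → P) (Su Sv : ℕ → Finset P)
    -- decomposition of the tube weights
    (hdec1 : ∀ k < K, ∀ v ∈ Sv k, Wt v z ≤ ∑ u ∈ Su k, Wt v u * Wt u z)
    (hdec2 : ∀ k < K, ∀ u ∈ Su k, Wt u z ≤ ∑ v ∈ Sv (k+1), Wt u v * Wt v z)
    -- swap in slab k
    (hswap : ∀ k < K, ∀ u ∈ Su k, ∀ v ∈ Sv (k+1),
      W u v * W (x k) (y k) ≤ W u (y k) * W (x k) v)
    -- Chapman-Kolmogorov for W
    (hck1 : ∀ k < K, ∀ p, ∀ u ∈ Su k, ∑ v ∈ Sv k, W p v * W v u ≤ W p u)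
    (hck2 : ∀ k < K, ∀ p, ∑ u ∈ Su k, W p u * W u (y k) ≤ W p (y k))
    (hck3 : ∀ p, ∑ v ∈ Sv K, W p v * W v z ≤ W p z) :
    ∀ m ≤ K, ∀ p, (∑ v ∈ Sv (K-m), W p v * Wt v z) * ∏ j ∈ Finset.Ico (K-m) K, W (x j) (y j) ≤
      (if m = 0 then W p z else
        W p (y (K-m)) * (∏ j ∈ Finset.Ico (K-m+1) K, W (x (j-1)) (y j)) * W (x (K-1)) z) := by
  intro m
  induction m with
  | zero =>
    intro _ p
    simp only [Nat.sub_zero, Finset.Ico_self, Finset.prod_empty, mul_one, if_true]
    refine le_trans (Finset.sum_le_sum fun v _ => ?_) (hck3 p)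
    exact mul_le_mul_of_nonneg_left (hle v z) (hW0 p v)
  | succ m ih =>
    intro hm p
    set k := K - (m+1) with hk
    have hkK : k < K := by omega
    have hk1 : k + 1 = K - m := by omega
    have ih' := ih (by omega) (x k)
    rw [← hk1] at ih'
    -- product splitting
    have hprod : ∏ j ∈ Finset.Ico k K, W (x j) (y j) =
        W (x k) (y k) * ∏ j ∈ Finset.Ico (k+1) K, W (x j) (y j) :=
      Finset.prod_eq_prod_Ico_succ_bot hkK _
    set Pr := ∏ j ∈ Finset.Ico (k+1) K, W (x j) (y j) with hPr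
    have hPr0 : 0 ≤ Pr := Finset.prod_nonneg fun j _ => hW0 _ _
    rw [hprod]
    have hmain : (∑ v ∈ Sv k, W p v * Wt v z) * (W (x k) (y k) * Pr) ≤
        W p (y k) * ((∑ v ∈ Sv (k+1), W (x k) v * Wt v z) * Pr) := by
      -- first expand
      have e1 : ∑ v ∈ Sv k, W p v * Wt v z ≤ ∑ u ∈ Su k, W p u * Wt u z := by
        calc ∑ v ∈ Sv k, W p v * Wt v z
            ≤ ∑ v ∈ Sv k, W p v * ∑ u ∈ Su k, W v u * Wt u z := by
              apply Finset.sum_le_sum
              intro v hv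
              apply mul_le_mul_of_nonneg_left _ (hW0 p v)
              refine (hdec1 k hkK v hv).trans ?_
              apply Finset.sum_le_sum
              intro u _
              exact mul_le_mul_of_nonneg_right (hle v u) (hWt0 u z)
          _ = ∑ u ∈ Su k, (∑ v ∈ Sv k, W p v * W v u) * Wt u z := by
              simp_rw [Finset.mul_sum, Finset.sum_mul]
              rw [Finset.sum_comm]
              apply Finset.sum_congr rfl; intro u _
              apply Finset.sum_congr rfl; intro v _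
              ring
          _ ≤ ∑ u ∈ Su k, W p u * Wt u z := by
              apply Finset.sum_le_sum
              intro u hu
              exact mul_le_mul_of_nonneg_right (hck1 k hkK p u hu) (hWt0 u z)
      have e2 : (∑ u ∈ Su k, W p u * Wt u z) * W (x k) (y k) ≤
          ∑ u ∈ Su k, W p u * (W u (y k) * ∑ v ∈ Sv (k+1), W (x k) v * Wt v z) := by
        rw [Finset.sum_mul]
        apply Finset.sum_le_sum
        intro u hu
        rw [mul_assoc]
        apply mul_le_mul_of_nonneg_left _ (hW0 p u)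
        calc Wt u z * W (x k) (y k) ≤ (∑ v ∈ Sv (k+1), W u v * Wt v z) * W (x k) (y k) := by
              apply mul_le_mul_of_nonneg_right _ (hW0 _ _)
              refine (hdec2 k hkK u hu).trans ?_
              apply Finset.sum_le_sum
              intro v _
              exact mul_le_mul_of_nonneg_right (hle u v) (hWt0 v z)
          _ = ∑ v ∈ Sv (k+1), (W u v * W (x k) (y k)) * Wt v z := by
              rw [Finset.sum_mul]; apply Finset.sum_congr rfl; intro v _; ring
          _ ≤ ∑ v ∈ Sv (k+1), (W u (y k) * W (x k) v) * Wt v z := by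
              apply Finset.sum_le_sum
              intro v hv
              exact mul_le_mul_of_nonneg_right (hswap k hkK u hu v hv) (hWt0 v z)
          _ = W u (y k) * ∑ v ∈ Sv (k+1), W (x k) v * Wt v z := by
              rw [Finset.mul_sum]; apply Finset.sum_congr rfl; intro v _; ring
      have e3 : ∑ u ∈ Su k, W p u * (W u (y k) * ∑ v ∈ Sv (k+1), W (x k) v * Wt v z) ≤
          W p (y k) * ∑ v ∈ Sv (k+1), W (x k) v * Wt v z := by
        have : ∑ u ∈ Su k, W p u * (W u (y k) * ∑ v ∈ Sv (k+1), W (x k) v * Wt v z) =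
            (∑ u ∈ Su k, W p u * W u (y k)) * ∑ v ∈ Sv (k+1), W (x k) v * Wt v z := by
          rw [Finset.sum_mul]; apply Finset.sum_congr rfl; intro u _; ring
        rw [this]
        apply mul_le_mul_of_nonneg_right (hck2 k hkK p)
        exact Finset.sum_nonneg fun v _ => mul_nonneg (hW0 _ _) (hWt0 _ _)
      have e4 := mul_le_mul_of_nonneg_right e1 (hW0 (x k) (y k))
      have e5 := (e4.trans e2).trans e3
      have e6 := mul_le_mul_of_nonneg_right e5 hPr0
      calc _ = (∑ v ∈ Sv k, W p v * Wt v z) * W (x k) (y k) * Pr := by ring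
        _ ≤ _ := e6
        _ = _ := by ring
    refine hmain.trans ?_
    rw [if_neg (by omega)]
    have h7 := mul_le_mul_of_nonneg_left ih' (hW0 p (y k))
    refine h7.trans (le_of_eq ?_)
    by_cases hm0 : m = 0
    · subst hm0
      have hK1 : K - 1 = k := by omega
      have hK : K = k + 1 := by omega
      simp [hK]
    · rw [if_neg hm0]
      have hk1K : k + 1 < K := by omega
      have : ∏ j ∈ Finset.Ico (k+1) K, W (x (j-1)) (y j) =
          W (x k) (y (k+1)) * ∏ j ∈ Finset.Ico (k+1+1) K, W (x (j-1)) (y j) := by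
        rw [Finset.prod_eq_prod_Ico_succ_bot hk1K]; simp
      rw [this]; ring

/-- The crossing inequality: `K ≥ 1` crossing pairs and one path inside the tube. -/
theorem cross (W Wt : P → P → ℝ) (hW0 : ∀ a b, 0 ≤ W a b) (hWt0 : ∀ a b, 0 ≤ Wt a b)
    (hle : ∀ a b, Wt a b ≤ W a b) (a z : P) (K : ℕ) (x y : ℕ → P) (Su Sv : ℕ → Finset P)
    (hdec0 : Wt a z ≤ ∑ u ∈ Su 0, Wt a u * Wt u z)
    (hdec1 : ∀ k, 0 < k → k ≤ K → ∀ v ∈ Sv k, Wt v z ≤ ∑ u ∈ Su k, Wt v u * Wt u z)
    (hdec2 : ∀ k ≤ K, ∀ u ∈ Su k, Wt u z ≤ ∑ v ∈ Sv (k+1), Wt u v * Wt v z)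
    (hswap : ∀ k ≤ K, ∀ u ∈ Su k, ∀ v ∈ Sv (k+1),
      W u v * W (x k) (y k) ≤ W u (y k) * W (x k) v)
    (hck1 : ∀ k, 0 < k → k ≤ K → ∀ p, ∀ u ∈ Su k, ∑ v ∈ Sv k, W p v * W v u ≤ W p u)
    (hck2 : ∀ k ≤ K, ∀ p, ∑ u ∈ Su k, W p u * W u (y k) ≤ W p (y k))
    (hck3 : ∀ p, ∑ v ∈ Sv (K+1), W p v * W v z ≤ W p z) :
    Wt a z * ∏ j ∈ range (K+1), W (x j) (y j) ≤
      W a (y 0) * (∏ j ∈ range K, W (x j) (y (j+1))) * W (x K) z := by
  -- shift: first slab by hand
  have h0 : Wt a z * W (x 0) (y 0) ≤ W a (y 0) * ∑ v ∈ Sv 1, W (x 0) v * Wt v z := by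
    calc Wt a z * W (x 0) (y 0)
        ≤ (∑ u ∈ Su 0, W a u * Wt u z) * W (x 0) (y 0) := by
          apply mul_le_mul_of_nonneg_right _ (hW0 _ _)
          refine hdec0.trans (Finset.sum_le_sum fun u _ => ?_)
          exact mul_le_mul_of_nonneg_right (hle a u) (hWt0 u z)
      _ ≤ ∑ u ∈ Su 0, W a u * (W u (y 0) * ∑ v ∈ Sv 1, W (x 0) v * Wt v z) := by
          rw [Finset.sum_mul]
          apply Finset.sum_le_sum
          intro u hu
          rw [mul_assoc]
          apply mul_le_mul_of_nonneg_left _ (hW0 a u)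
          calc Wt u z * W (x 0) (y 0) ≤ (∑ v ∈ Sv (0+1), W u v * Wt v z) * W (x 0) (y 0) := by
                apply mul_le_mul_of_nonneg_right _ (hW0 _ _)
                refine (hdec2 0 (Nat.zero_le _) u hu).trans (Finset.sum_le_sum fun v _ => ?_)
                exact mul_le_mul_of_nonneg_right (hle u v) (hWt0 v z)
            _ = ∑ v ∈ Sv (0+1), (W u v * W (x 0) (y 0)) * Wt v z := by
                rw [Finset.sum_mul]; apply Finset.sum_congr rfl; intro v _; ring
            _ ≤ ∑ v ∈ Sv (0+1), (W u (y 0) * W (x 0) v) * Wt v z := by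
                apply Finset.sum_le_sum
                intro v hv
                exact mul_le_mul_of_nonneg_right (hswap 0 (Nat.zero_le _) u hu v hv) (hWt0 v z)
            _ = W u (y 0) * ∑ v ∈ Sv 1, W (x 0) v * Wt v z := by
                rw [Finset.mul_sum]; apply Finset.sum_congr rfl; intro v _; ring
      _ = (∑ u ∈ Su 0, W a u * W u (y 0)) * ∑ v ∈ Sv 1, W (x 0) v * Wt v z := by
          rw [Finset.sum_mul]; apply Finset.sum_congr rfl; intro u _; ring
      _ ≤ W a (y 0) * ∑ v ∈ Sv 1, W (x 0) v * Wt v z := by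
          apply mul_le_mul_of_nonneg_right (hck2 0 (Nat.zero_le _) a)
          exact Finset.sum_nonneg fun v _ => mul_nonneg (hW0 _ _) (hWt0 _ _)
  -- the remaining slabs, with shifted indices
  have haux := cross_aux W Wt hW0 hWt0 hle z K (fun k => x (k+1)) (fun k => y (k+1))
    (fun k => Su (k+1)) (fun k => Sv (k+1))
    (fun k hk v hv => hdec1 (k+1) (Nat.succ_pos _) (by omega) v hv)
    (fun k hk u hu => hdec2 (k+1) (by omega) u hu)
    (fun k hk u hu v hv => hswap (k+1) (by omega) u hu v hv)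
    (fun k hk p u hu => hck1 (k+1) (Nat.succ_pos _) (by omega) p u hu)
    (fun k hk p => hck2 (k+1) (by omega) p)
    (fun p => hck3 p) K le_rfl (x 0)
  simp only [Nat.sub_self] at haux
  have hPr0 : 0 ≤ ∏ j ∈ Finset.Ico 0 K, W (x (j+1)) (y (j+1)) := Finset.prod_nonneg fun j _ => hW0 _ _
  have h1 := mul_le_mul_of_nonneg_right h0 hPr0
  have h2 : Wt a z * ∏ j ∈ range (K+1), W (x j) (y j) =
      Wt a z * W (x 0) (y 0) * ∏ j ∈ Finset.Ico 0 K, W (x (j+1)) (y (j+1)) := by
    rw [Finset.prod_range_succ', Finset.range_eq_Ico]; ring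
  rw [h2]
  refine h1.trans ?_
  rw [mul_assoc]
  have h3 := mul_le_mul_of_nonneg_left haux (hW0 a (y 0))
  refine h3.trans (le_of_eq ?_)
  by_cases hK : K = 0
  · subst hK; simp
  · rw [if_neg hK]
    have hKpos : 0 < K := Nat.pos_of_ne_zero hK
    have e1 : K - 1 + 1 = K := by omega
    have e2 : ∏ j ∈ range K, W (x j) (y (j+1)) =
        W (x 0) (y 1) * ∏ j ∈ Finset.Ico (0+1) K, W (x (j-1+1)) (y (j+1)) := by
      rw [Finset.range_eq_Ico, Finset.prod_eq_prod_Ico_succ_bot hKpos]
      congr 1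
      apply Finset.prod_congr rfl
      intro j hj
      have := (Finset.mem_Ico.mp hj).1
      have e3 : j - 1 + 1 = j := by omega
      rw [e3]
    rw [e1, e2]; ring

end F17
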