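import Mathlib

/-! Theorem F (MP_7d29a1_pr), section 6: the sequences of windows (pure statements). -/

open Finset

namespace F17

/-- Summability of the relative widths and finite variation of the edge positions. -/
theorem win (τ U fl : ℕ → ℝ) (κ m M : ℝ)
    (hκ : 0 ≤ κ) (hκm : κ + m ≤ 1/2)
    (hU0 : ∀ i, 0 ≤ U i) (hfl0 : ∀ i, 0 ≤ fl i) (hfl : Summable fl)
    (hU : ∀ i, U (i+1) ≤ (τ i - τ (i+1) + κ * U i) + m * U i + fl i)
    (hτ : ∀ i, τ (i+1) ≤ τ i + κ * U i)
    (hM : ∀ i, |τ i| ≤ M) :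
    Summable U ∧ Summable (fun i => |τ (i+1) - τ i|) := by
  have hsum : ∀ n, ∑ i ∈ range n, U (i+1) ≤ 2 * M + (1/2) * ∑ i ∈ range n, U i + ∑' i, fl i := by
    intro n
    have h1 : ∑ i ∈ range n, U (i+1) ≤
        ∑ i ∈ range n, ((τ i - τ (i+1)) + (1/2) * U i + fl i) := by
      apply Finset.sum_le_sum
      intro i _
      have := hU i
      have := mul_le_mul_of_nonneg_right hκm (hU0 i)
      linarith
    rw [Finset.sum_add_distrib, Finset.sum_add_distrib, Finset.sum_range_sub', ← Finset.mul_sum] at h1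
    have h2 : ∑ i ∈ range n, fl i ≤ ∑' i, fl i := hfl.sum_le_tsum _ (fun i _ => hfl0 i)
    have h3 := abs_le.mp (hM 0)
    have h4 := abs_le.mp (hM n)
    linarith [h3.1, h3.2, h4.1, h4.2]
  have hbd : ∀ n, ∑ i ∈ range n, U i ≤ 2 * (U 0 + 2 * M + ∑' i, fl i) := by
    intro n
    have h1 : ∑ i ∈ range (n+1), U i = ∑ i ∈ range n, U (i+1) + U 0 := Finset.sum_range_succ' U n
    have h2 : ∑ i ∈ range n, U i ≤ ∑ i ∈ range (n+1), U i := by
      rw [Finset.sum_range_succ]; linarith [hU0 n]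
    have h3 := hsum n
    linarith
  have hSU : Summable U := summable_of_sum_range_le hU0 hbd
  refine ⟨hSU, ?_⟩
  refine summable_of_sum_range_le (c := 2 * M + 2 * (κ * ∑' i, U i)) (fun i => abs_nonneg _) ?_
  intro n
  have h1 : ∀ i, |τ (i+1) - τ i| ≤ (τ i - τ (i+1)) + 2 * (κ * U i) := by
    intro i
    have h := hτ i
    have h0 := mul_nonneg hκ (hU0 i)
    rw [abs_le]
    constructor <;> linarith
  have h2 : ∑ i ∈ range n, |τ (i+1) - τ i| ≤ ∑ i ∈ range n, ((τ i - τ (i+1)) + 2 * (κ * U i)) :=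
    Finset.sum_le_sum fun i _ => h1 i
  rw [Finset.sum_add_distrib, Finset.sum_range_sub', ← Finset.mul_sum, ← Finset.mul_sum] at h2
  have h3 : ∑ i ∈ range n, U i ≤ ∑' i, U i := hSU.sum_le_tsum _ (fun i _ => hU0 i)
  have h4 := mul_le_mul_of_nonneg_left h3 hκ
  have h5 := abs_le.mp (hM 0)
  have h6 := abs_le.mp (hM n)
  linarith [h5.1, h5.2, h6.1, h6.2]

lemma summable_conv (r : ℝ) (hr0 : 0 ≤ r) (hr1 : r < 1) (f : ℕ → ℝ)
    (hf : Summable f) : Summable (fun i => ∑ p ∈ range (i+1), r^p * f (i-p)) := by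
  have hg : Summable (fun p : ℕ => r^p) := summable_geometric_of_lt_one hr0 hr1
  have := summable_norm_sum_mul_range_of_summable_norm (f := fun p : ℕ => r^p) (g := f) (by
    simpa using hg.norm) (by simpa using hf.norm)
  exact this.of_norm

/-- The damped maximal widths `U*` are summable. -/
theorem win_star (τ U : ℕ → ℝ) (r : ℝ) (hr0 : 0 ≤ r) (hr1 : r < 1)
    (hU0 : ∀ i, 0 ≤ U i) (hU : Summable U) (hτ : Summable (fun i => |τ (i+1) - τ i|)) :
    Summable (fun i => ∑ p ∈ range (i+1), r^p * (U (i-p) + |τ i - τ (i-p)|)) := by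
  set D : ℕ → ℝ := fun i => |τ (i+1) - τ i| with hD
  have hD0 : ∀ i, 0 ≤ D i := fun i => abs_nonneg _
  have hconvU := summable_conv r hr0 hr1 U hU
  have hconvD := summable_conv r hr0 hr1 D hτ
  have h1r : 0 < 1 - r := by linarith
  -- bound of the increments
  have hinc : ∀ i p, p ≤ i → |τ i - τ (i-p)| ≤ ∑ k ∈ Finset.Ico (i-p) i, D k := by
    intro i p hp
    have : τ i - τ (i-p) = ∑ k ∈ Finset.Ico (i-p) i, (τ (k+1) - τ k) := by
      rw [Finset.sum_Ico_sub _ (Nat.sub_le i p)]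
    rw [this]
    exact Finset.abs_sum_le_sum_abs _ _
  have hmain : ∀ i, ∑ p ∈ range (i+1), r^p * |τ i - τ (i-p)| ≤
      (1/(1-r)) * ∑ p ∈ range (i+1), r^p * D (i-p) := by
    intro i
    have h1 : ∑ p ∈ range (i+1), r^p * |τ i - τ (i-p)| ≤
        ∑ p ∈ range (i+1), r^p * ∑ k ∈ Finset.Ico (i-p) i, D k := by
      apply Finset.sum_le_sum
      intro p hp
      apply mul_le_mul_of_nonneg_left _ (by positivity)
      exact hinc i p (by have := Finset.mem_range.mp hp; omega)
    refine h1.trans ?_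
    -- swap
    have h2 : ∑ p ∈ range (i+1), r^p * ∑ k ∈ Finset.Ico (i-p) i, D k =
        ∑ k ∈ range i, D k * ∑ p ∈ Finset.Ico (i-k) (i+1), r^p := by
      simp_rw [Finset.mul_sum]
      rw [Finset.sum_sigma', Finset.sum_sigma']
      apply Finset.sum_bij' (fun x _ => (⟨x.2, x.1⟩ : Σ _ : ℕ, ℕ)) (fun x _ => (⟨x.2, x.1⟩ : Σ _ : ℕ, ℕ))
      · rintro ⟨p, k⟩ h
        simp only [Finset.mem_sigma, Finset.mem_range, Finset.mem_Ico] at h ⊢
        omega
      · rintro ⟨k, p⟩ h
        simp only [Finset.mem_sigma, Finset.mem_range, Finset.mem_Ico] at h ⊢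
        omega
      · rintro ⟨p, k⟩ _; rfl
      · rintro ⟨k, p⟩ _; rfl
      · rintro ⟨p, k⟩ _; simp [mul_comm]
    rw [h2]
    have h3 : ∀ k ∈ range i, D k * ∑ p ∈ Finset.Ico (i-k) (i+1), r^p ≤ D k * ((1/(1-r)) * r^(i-k)) := by
      intro k hk
      apply mul_le_mul_of_nonneg_left _ (hD0 k)
      have hg := hasSum_geometric_of_lt_one hr0 hr1
      have : ∑ p ∈ Finset.Ico (i-k) (i+1), r^p = r^(i-k) * ∑ p ∈ range (i+1-(i-k)), r^p := by
        rw [Finset.sum_Ico_eq_sum_range, Finset.mul_sum]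
        apply Finset.sum_congr rfl
        intro p _; rw [pow_add]
      rw [this]
      have h4 := sum_le_hasSum (range (i+1-(i-k))) (fun j _ => by positivity) hg
      rw [inv_eq_one_div] at h4
      have h5 : (0:ℝ) ≤ r^(i-k) := by positivity
      nlinarith
    refine (Finset.sum_le_sum h3).trans ?_
    have h4 : ∑ k ∈ range i, D k * ((1/(1-r)) * r^(i-k)) = (1/(1-r)) * ∑ k ∈ range i, r^(i-k) * D k := by
      rw [Finset.mul_sum]; apply Finset.sum_congr rfl; intro k _; ring
    rw [h4]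
    apply mul_le_mul_of_nonneg_left _ (by positivity)
    have h5 : ∑ p ∈ range (i+1), r^p * D (i-p) = ∑ k ∈ range (i+1), r^(i-k) * D k := by
      rw [← Finset.sum_range_reflect (fun k => r^(i-k) * D k) (i+1)]
      apply Finset.sum_congr rfl
      intro p hp
      have hp' := Finset.mem_range.mp hp
      have e1 : i + 1 - 1 - p = i - p := by omega
      have e2 : i - (i - p) = p := by omega
      rw [e1, e2]
    rw [h5, Finset.sum_range_succ]
    have : 0 ≤ r^(i-i) * D i := mul_nonneg (by positivity) (hD0 i)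
    linarith
  have htot := hconvU.add (hconvD.mul_left (1/(1-r)))
  refine Summable.of_nonneg_of_le ?_ ?_ htot
  · intro i
    apply Finset.sum_nonneg
    intro p _
    exact mul_nonneg (by positivity) (add_nonneg (hU0 _) (abs_nonneg _))
  · intro i
    simp_rw [mul_add]
    rw [Finset.sum_add_distrib]
    have := hmain i
    linarith

end F17
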